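import Pool.Agent.helper48.AGR.Spec

/-!
# Row CLO (MP_def0df_al): exponential lower bound for the conjugacy growth
-/

set_option autoImplicit false

namespace Pool.Agent.AGR

theorem CLO (hBAL : BAL_stmt) : CLO_stmt := by
  intro G _ v π t z s e₀ a₀ h S hS
  obtain ⟨hmul, hinv, hmono, hcl, hfin⟩ := hBAL G S
  obtain ⟨k₁, hk₁⟩ := hcl hS s
  obtain ⟨k₂, hk₂⟩ := hcl hS z
  obtain ⟨k₃, hk₃⟩ := hcl hS t
  obtain ⟨k, hk⟩ : ∃ k, k = k₁ + k₂ + k₃ := ⟨_, rfl⟩
  have hs : s ∈ Ball (S : Set G) k := hmono k₁ k (by omega) hk₁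
  have hz : z ∈ Ball (S : Set G) k := hmono k₂ k (by omega) hk₂
  have ht : t ∈ Ball (S : Set G) k := hmono k₃ k (by omega) hk₃
  have h1 : (1 : G) ∈ Ball (S : Set G) k :=
    hmono 0 k (Nat.zero_le k) ⟨[], by simp, by simp, by simp⟩
  -- powers of `z`
  have hsz : ∀ q : ℕ, s * z ^ q * s⁻¹ = z ^ (2 * q) := by
    intro q
    rw [← conj_pow, h.zz, ← pow_mul]
  have hA : ∀ n m : ℕ, m < 2 ^ n → z ^ m ∈ Ball (S : Set G) (3 * k * n) := by
    intro n
    induction n with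
    | zero =>
      intro m hm
      have : m = 0 := by simpa using hm
      subst this
      rw [pow_zero]
      exact ⟨[], by simp, by simp, by simp⟩
    | succ n ih =>
      intro m hm
      have hq : m / 2 < 2 ^ n := by
        rw [pow_succ] at hm
        omega
      have e : z ^ m = s * z ^ (m / 2) * s⁻¹ * z ^ (m % 2) := by
        rw [hsz, ← pow_add, Nat.div_add_mod]
      have hr : z ^ (m % 2) ∈ Ball (S : Set G) k := by
        rcases Nat.mod_two_eq_zero_or_one m with h0 | h0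
        · rw [h0, pow_zero]; exact h1
        · rw [h0, pow_one]; exact hz
      rw [e]
      have := hmul _ _ _ _ (hmul _ _ _ _ (hmul _ _ _ _ hs (ih _ hq)) (hinv _ _ hs)) hr
      have e2 : k + 3 * k * n + k + k = 3 * k * (n + 1) := by ring
      rwa [e2] at this
  -- the central elements
  have hB : ∀ m : ℕ, v (a₀ ^ m) = t * z ^ m * t⁻¹ * (z ^ m)⁻¹ := by
    intro m
    rw [← conj_pow, h.tz, (h.cen a₀ z).mul_pow, map_pow, mul_assoc, mul_inv_cancel, mul_one]
  have hBall : ∀ n m : ℕ, m < 2 ^ n → v (a₀ ^ m) ∈ Ball (S : Set G) ((6 * k + 1) * n + (6 * k + 1)) := by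
    intro n m hm
    rw [hB]
    have hzm := hA n m hm
    have := hmul _ _ _ _ (hmul _ _ _ _ (hmul _ _ _ _ ht hzm) (hinv _ _ ht)) (hinv _ _ hzm)
    refine hmono _ _ ?_ this
    nlinarith
  have hinj : ∀ m m' : ℕ, ConjClasses.mk (v (a₀ ^ m)) = ConjClasses.mk (v (a₀ ^ m')) → m = m' := by
    intro m m' he
    rw [ConjClasses.mk_eq_mk_iff_isConj, isConj_iff] at he
    obtain ⟨c, hc⟩ := he
    rw [← (h.cen (a₀ ^ m) c).eq, mul_assoc, mul_inv_cancel, mul_one] at hc
    have h2 := h.inj hc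
    have h3 : Multiplicative.toAdd (a₀ ^ m) = Multiplicative.toAdd (a₀ ^ m') := by rw [h2]
    rw [toAdd_pow, toAdd_pow, nsmul_eq_mul, nsmul_eq_mul] at h3
    have h4 : Multiplicative.toAdd a₀ ≠ 0 := by
      intro h5
      exact h.a0 (by rw [← ofAdd_toAdd a₀, h5, ofAdd_zero])
    have h6 := mul_right_cancel₀ h4 h3
    exact_mod_cast h6
  refine ⟨6 * k + 1, by omega, fun n => ?_⟩
  unfold conjGrowth
  have hfin2 : {c : ConjClasses G | ∃ g ∈ Ball (S : Set G) ((6 * k + 1) * n + (6 * k + 1)),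
      ConjClasses.mk g = c}.Finite := (hfin _).1.image ConjClasses.mk
  have hsub : (fun m : ℕ => ConjClasses.mk (v (a₀ ^ m))) '' (Set.Iio (2 ^ n)) ⊆
      {c : ConjClasses G | ∃ g ∈ Ball (S : Set G) ((6 * k + 1) * n + (6 * k + 1)),
        ConjClasses.mk g = c} := by
    rintro _ ⟨m, hm, rfl⟩
    exact ⟨_, hBall n m hm, rfl⟩
  calc 2 ^ n = (Set.Iio (2 ^ n)).ncard := by
        rw [← Finset.coe_Iio, Set.ncard_coe_finset, Nat.card_Iio]
    _ = ((fun m : ℕ => ConjClasses.mk (v (a₀ ^ m))) '' (Set.Iio (2 ^ n))).ncard :=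
        (Set.ncard_image_of_injective _ (fun m m' he => hinj m m' he)).symm
    _ ≤ _ := Set.ncard_le_ncard hsub hfin2

end Pool.Agent.AGR
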